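import Pool.Agent.RCM.StmtsA

/-!
# Squad RCA, row ITR (helper49)
-/

set_option autoImplicit false

namespace Pool.Agent.RCM.H49

open Set

universe u

theorem itr (rrb : RrbStmt.{u}) (opb : OpbStmt.{u}) (lcr : LcrStmt.{u}) (saf : SafStmt.{u})
    (stp : StpStmt.{u}) : ItrStmt.{u} := by
  classical
  intro E K _ _ M N κ s t P X T m v D F hCol hMx hSt hF hRob l
  induction l with
  | zero =>
    intro _
    refine ⟨T, fun _ => 0, Subset.rfl, ?_, ?_, ?_⟩
    · rw [Set.sdiff_self, ncard_empty, Nat.zero_mul]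
    · simp
    · intro c _
      simp
  | succ l ih =>
    intro hl
    have hl1 : D + (l + 1) * (m + v) ≤ {y ∈ T | κ y ∈ F}.ncard := by
      rcases hl with h | h
      · exact absurd h (Nat.succ_ne_zero l)
      · exact h
    rw [Nat.succ_mul] at hl1
    obtain ⟨Z, b, hZT, hTZ, hb, hr⟩ := ih (Or.inr (by omega))
    have hZ : D + (m + v) ≤ {y ∈ Z | κ y ∈ F}.ncard := by
      have h1 : {y ∈ T | κ y ∈ F} ⊆ {y ∈ Z | κ y ∈ F} ∪ (T \ Z) := by
        intro y hy
        by_cases hyZ : y ∈ Z
        · exact Or.inl ⟨hyZ, hy.2⟩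
        · exact Or.inr ⟨hy.1, hyZ⟩
      have h2 := (ncard_le_ncard h1 (toFinite _)).trans (ncard_union_le _ _)
      omega
    obtain ⟨T', P', hOp, hP', hZT'⟩ := saf E K M N κ s t P X T m (m + v) D F Z hCol hMx hSt
      (fun T' P' h => by rw [hF]; exact hRob T' P' h) hZT hZ
    obtain ⟨-, -, -, h4⟩ := opb E K M N κ X
    have hSt' := (h4 s t _ T P T' P' hCol hMx hSt hOp).1
    refine ⟨Z ∩ T', fun c => b c + if c ∈ F \ Gn M N κ P' X m T' then 1 else 0,
      inter_subset_left.trans hZT, ?_, ?_, ?_⟩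
    · have h1 : T \ (Z ∩ T') = (T \ Z) ∪ (Z \ T') := by
        ext y
        constructor
        · rintro ⟨h1, h2⟩
          by_cases h3 : y ∈ Z
          · exact Or.inr ⟨h3, fun h4 => h2 ⟨h3, h4⟩⟩
          · exact Or.inl ⟨h1, h3⟩
        · rintro (⟨h1, h2⟩ | ⟨h1, h2⟩)
          · exact ⟨h1, fun h3 => h2 h3.1⟩
          · exact ⟨hZT h1, fun h3 => h2 h3.2⟩
      have h2 : Disjoint (T \ Z) (Z \ T') := by
        rw [Set.disjoint_left]
        intro y h3 h4
        exact h3.2 h4.1
      rw [h1, ncard_union_eq h2 (toFinite _) (toFinite _), hTZ, hZT', Nat.succ_mul]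
    · rw [Finset.sum_add_distrib, Nat.succ_mul]
      refine Nat.add_le_add hb ?_
      have h1 := hRob T' P' hOp
      rw [← hF] at h1
      refine le_trans (le_of_eq ?_) h1
      rw [Finset.sum_boole, Nat.cast_id, ncard_eq_toFinset_card' (F \ Gn M N κ P' X m T')]
      congr 1
      ext c
      simp
    · intro c hc
      have h1 := hr c hc
      by_cases hcG : c ∈ Gn M N κ P' X m T'
      · have h2 : c ∉ F \ Gn M N κ P' X m T' := fun h => h.2 hcG
        simp only [h2, if_false, Nat.add_zero]
        have h3 := (lcr E K M N κ s t P X T ((m + v) * (m + 1)) m hCol hMx hSt).2 T' P' c hOp hcG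
        rw [← hF] at h3
        have h5 := stp E M (Lc N κ F T c) Z T' P t m (m + v) (by rw [← hP']; exact hSt'.fr)
          (by
            have h6 := hSt'.dj
            rw [hP'] at h6
            exact Set.disjoint_of_subset_right subset_union_left h6)
          (Set.disjoint_of_subset_right (Set.sdiff_subset.trans hZT) hSt.dj.symm)
          hSt'.card hZT' h3
        rw [Nat.succ_mul]
        omega
      · have h2 : c ∈ F \ Gn M N κ P' X m T' := ⟨hc, hcG⟩
        simp only [h2, if_true]
        have h3 : rr M (Lc N κ F T c ∪ (Z ∩ T') ∪ P) ≤ rr M (Lc N κ F T c ∪ Z ∪ P) := by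
          refine (rrb E M _ _).1 ?_
          exact union_subset_union_left _ (union_subset_union_right _ inter_subset_left)
        rw [Nat.succ_mul, Nat.succ_mul]
        omega

end Pool.Agent.RCM.H49
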